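import Mathlib

set_option autoImplicit false
open Finset Filter

namespace Pool.Agent.H.MP_12a1af_nt

open Classical in
/-- the window of length `n` at position `t` -/
noncomputable def pat (A : Set ℕ) (t n : ℕ) : Finset ℕ := (range n).filter fun i => t + i ∈ A

variable {A : Set ℕ}

theorem mem_pat {t n i : ℕ} : i ∈ pat A t n ↔ i < n ∧ t + i ∈ A := by simp [pat]

open Classical in
/-- all windows -/
noncomputable def PP (A : Set ℕ) (n : ℕ) : Finset (Finset ℕ) :=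
  (range n).powerset.filter fun F => ∃ t, F = pat A t n

open Classical in
/-- anchored windows -/
noncomputable def QQ (A : Set ℕ) (n : ℕ) : Finset (Finset ℕ) :=
  (range n).powerset.filter fun F => ∃ a ∈ A, n ≤ a ∧ F = pat A a n

theorem pat_sub (t n : ℕ) : pat A t n ∈ (range n).powerset :=
  mem_powerset.2 fun _ h => mem_range.2 (mem_pat.1 h).1

theorem PP_card (n : ℕ) :
    {F : Finset ℕ | ∃ t, ∀ i, i ∈ F ↔ i < n ∧ t + i ∈ A}.ncard = #(PP A n) := by
  rw [← Set.ncard_coe_finset]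
  congr 1
  ext F
  simp only [PP, coe_filter, Set.mem_ofPred_eq]
  exact ⟨fun ⟨t, h⟩ => by
    have : F = pat A t n := by ext i; rw [h, mem_pat]
    exact ⟨this ▸ pat_sub t n, t, this⟩, fun ⟨_, t, h⟩ => ⟨t, fun i => by rw [h, mem_pat]⟩⟩

theorem QQ_le {n w : ℕ} (h : ∀ t, #(pat A t n) ≤ w) : #(QQ A n) * n ≤ w * #(PP A (2 * n)) := by
  classical
  have c : ∀ F ∈ QQ A n, ∃ a ∈ A, n ≤ a ∧ F = pat A a n := fun F hF => (mem_filter.1 hF).2
  choose! a a1 a2 a3 using c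
  have := card_le_mul_card_image_of_maps_to (s := QQ A n ×ˢ range n) (t := PP A (2 * n))
    (f := fun x => pat A (a x.1 - x.2) (2 * n))
    (fun x _ => mem_filter.2 ⟨pat_sub _ _, _, rfl⟩) w fun u hu => by
      obtain ⟨t, rfl⟩ := (mem_filter.1 hu).2
      refine le_trans (card_le_card_of_injOn Prod.snd (fun x hx => ?_) fun x hx y hy e => ?_) (h t)
      · simp only [coe_filter, mem_product, mem_range, Set.mem_ofPred_eq] at hx
        have := a2 _ hx.1.1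
        have b : x.2 ∈ pat A (a x.1 - x.2) (2 * n) := mem_pat.2 ⟨by omega, by
          rw [Nat.sub_add_cancel (by omega)]; exact a1 _ hx.1.1⟩
        rw [hx.2] at b
        exact mem_coe.2 (mem_pat.2 ⟨hx.1.2, (mem_pat.1 b).2⟩)
      · simp only [coe_filter, mem_product, mem_range, Set.mem_ofPred_eq] at hx hy
        refine Prod.ext ?_ e
        have := a2 _ hx.1.1
        have := a2 _ hy.1.1
        rw [a3 _ hx.1.1, a3 _ hy.1.1]
        ext i
        have b := Finset.ext_iff.1 (hx.2.trans hy.2.symm) (x.2 + i)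
        simp only [mem_pat] at b ⊢
        rw [show a x.1 - x.2 + (x.2 + i) = a x.1 + i by omega,
          show a y.1 - y.2 + (x.2 + i) = a y.1 + i by omega] at b
        exact and_congr_right fun hi => by simpa [show x.2 + i < 2 * n by omega] using b
  simpa using this

/-- base points of symmetric configurations -/
def BB (A : Set ℕ) (j n a : ℕ) : Prop :=
  a ∈ A ∧ ∃ (Y : Finset ℕ) (σ : ℕ), j < #Y ∧ ∀ y ∈ Y, y < n ∧ a + y ∈ A ∧ y ≤ σ ∧ σ - y ∈ Y

theorem BB_step {j n a d m : ℕ} (h : BB A j n a) (d0 : 0 < d) (dm : d ≤ m)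
    (e : pat A a n = pat A (a + d) n) : BB A (j + 1) (n + m) a := by
  obtain ⟨ha, Y, σ, c, h⟩ := h
  have ne : Y.Nonempty := card_pos.1 (by omega)
  refine ⟨ha, Y ∪ Y.image (· + d), σ + d, ?_, fun y hy => ?_⟩
  · refine lt_of_le_of_lt c (card_lt_card ⟨subset_union_left, fun s => ?_⟩)
    have := Y.le_max' _ (s (mem_union_right _ (mem_image_of_mem _ (Y.max'_mem ne))))
    omega
  · rcases mem_union.1 hy with hy | hy
    · obtain ⟨b1, b2, b3, b4⟩ := h y hy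
      exact ⟨by omega, b2, by omega, mem_union_right _ (mem_image.2 ⟨_, b4, by omega⟩)⟩
    · obtain ⟨y, hy', rfl⟩ := mem_image.1 hy
      obtain ⟨b1, b2, b3, b4⟩ := h y hy'
      have := (mem_pat.1 (e ▸ mem_pat.2 ⟨b1, b2⟩ : y ∈ pat A (a + d) n)).2
      exact ⟨by omega, by rwa [← add_assoc, add_right_comm], by omega,
        mem_union_left _ (by rwa [Nat.add_sub_add_right])⟩

open Classical in
theorem count {j n m w : ℕ} (N : ℕ) (m0 : 0 < m) (h : ∀ t, #(pat A t n) ≤ w) :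
    #((range N).filter (BB A j n)) ≤
      #((range N).filter (BB A (j + 1) (n + m))) + w + (N / m + 1) * #(QQ A n) := by
  have a : #((range N).filter fun a => BB A j n a ∧ ¬ BB A (j + 1) (n + m) a ∧ n ≤ a) ≤
      #(range (N / m + 1) ×ˢ QQ A n) := by
    refine card_le_card_of_injOn (fun a => (a / m, pat A a n)) (fun a ha => ?_) ?_
    · simp only [coe_filter, mem_range, Set.mem_ofPred_eq] at ha
      exact mem_coe.2 (mem_product.2 ⟨mem_range.2 (Nat.lt_succ_of_le (Nat.div_le_div_right ha.1.le)),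
        mem_filter.2 ⟨pat_sub _ _, a, ha.2.1.1, ha.2.2.2, rfl⟩⟩)
    · have k : ∀ a b, BB A j n a → ¬ BB A (j + 1) (n + m) a → a / m = b / m →
          pat A a n = pat A b n → b ≤ a := fun a b h1 h2 h3 h4 => by
        by_contra c
        obtain ⟨d, rfl⟩ : ∃ d, b = a + d := ⟨b - a, by omega⟩
        have := Nat.div_add_mod a m
        have := Nat.div_add_mod (a + d) m
        have := Nat.mod_lt (a + d) m0
        rw [h3] at *
        exact h2 (BB_step h1 (by omega) (by omega) h4)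
      intro a ha b hb e
      simp only [coe_filter, mem_range, Set.mem_ofPred_eq, Prod.mk.injEq] at ha hb e
      exact le_antisymm (k b a hb.2.1 hb.2.2.1 e.1.symm e.2.symm) (k a b ha.2.1 ha.2.2.1 e.1 e.2)
  rw [card_product, card_range] at a
  refine le_trans (card_le_card (t := ((range N).filter (BB A (j + 1) (n + m)) ∪ pat A 0 n) ∪
    (range N).filter fun a => BB A j n a ∧ ¬ BB A (j + 1) (n + m) a ∧ n ≤ a) fun x hx => ?_)
    ((card_union_le _ _).trans (add_le_add ((card_union_le _ _).trans (by gcongr; exact h 0)) a))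
  simp only [mem_union, mem_filter, mem_pat, zero_add] at hx ⊢
  have := hx.2.1
  by_cases u : BB A (j + 1) (n + m) x <;> by_cases v : x < n <;> simp_all

open Classical in
theorem grow {α K : ℝ} (a0 : 0 < α) (a1 : α < 1)
    (hW : ∀ t n, 1 ≤ n → (#(pat A t n) : ℝ) ≤ K * (n : ℝ) ^ α)
    (hp : ∀ ε : ℝ, 0 < ε → ∃ C : ℝ, ∀ n, 1 ≤ n → (#(PP A n) : ℝ) ≤ C * (n : ℝ) ^ (1 + ε)) (j : ℕ) :
    ∀ η : ℝ, 0 < η → ∃ θ : ℝ, 0 ≤ θ ∧ θ < 1 ∧ ∃ L : ℝ, 0 < L ∧ ∀ᶠ N : ℕ in atTop, ∃ n : ℕ, 1 ≤ n ∧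
      (n : ℝ) ≤ L * (N : ℝ) ^ θ ∧
      (#(pat A 0 N) : ℝ) ≤ #((range N).filter (BB A j n)) + η * (N : ℝ) ^ α := by
  induction j with
  | zero =>
    refine fun η h => ⟨0, le_rfl, one_pos, 1, one_pos, .of_forall fun N => ⟨1, le_rfl, by simp, ?_⟩⟩
    have : #(pat A 0 N) ≤ #((range N).filter (BB A 0 1)) := card_le_card fun x hx => by
      simp only [mem_pat, zero_add] at hx
      exact mem_filter.2 ⟨mem_range.2 hx.1, hx.2, {0}, 0, by simp, by simpa using hx.2⟩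
    have : (#(pat A 0 N) : ℝ) ≤ #((range N).filter (BB A 0 1)) := by exact_mod_cast this
    have : 0 ≤ η * (N : ℝ) ^ α := by positivity
    linarith
  | succ j ih =>
    intro η h
    obtain ⟨θ, t0, t1, L, L0, ev⟩ := ih (η / 4) (by positivity)
    obtain ⟨ε, he⟩ : ∃ ε, ε = α * (1 - θ) / 2 := ⟨_, rfl⟩
    have e0 : 0 < ε := by rw [he]; have := sub_pos.2 t1; positivity
    obtain ⟨τ, ht⟩ : ∃ τ, τ = θ * (α + ε) := ⟨_, rfl⟩
    have τ0 : 0 ≤ τ := by rw [ht]; positivity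
    have τ1 : τ < α := by nlinarith
    obtain ⟨C, hC⟩ := hp ε e0
    have K0 : 0 ≤ K := by simpa using (Nat.cast_nonneg _).trans (hW 0 1 le_rfl)
    have C0 : 0 ≤ C := by simpa using (Nat.cast_nonneg _).trans (hC 1 le_rfl)
    obtain ⟨D, hD⟩ : ∃ D, D = (K * (C * 2 ^ (1 + ε)) + K + 1) * L ^ (α + ε) := ⟨_, rfl⟩
    have D0 : 0 < D := by rw [hD]; positivity
    obtain ⟨M, hM⟩ : ∃ M, M = 4 * D / η := ⟨_, rfl⟩
    have M0 : 0 < M := by rw [hM]; positivity
    have ev2 : ∀ᶠ N : ℕ in atTop, (N : ℝ) ^ (-(α - τ)) < η / 4 / D :=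
      ((tendsto_rpow_neg_atTop (sub_pos.2 τ1)).comp tendsto_natCast_atTop_atTop).eventually_lt_const
        (by positivity)
    refine ⟨max θ (1 - α + τ), le_max_of_le_left t0, max_lt t1 (by linarith), L + M + 1,
      by positivity, ?_⟩
    filter_upwards [ev, ev2, eventually_ge_atTop 1] with N ⟨n, n1, n2, n3⟩ h2 N1
    have N1' : (1 : ℝ) ≤ N := by exact_mod_cast N1
    have n1' : (1 : ℝ) ≤ n := by exact_mod_cast n1
    have N0 : (0 : ℝ) < N := by linarith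
    have n0 : (0 : ℝ) < n := by linarith
    obtain ⟨m, hm⟩ : ∃ m, m = ⌈M * (N : ℝ) ^ (1 - α + τ)⌉₊ := ⟨_, rfl⟩
    have m0 : 0 < m := by rw [hm]; exact Nat.ceil_pos.2 (by positivity)
    have m1 : M * (N : ℝ) ^ (1 - α + τ) ≤ m := hm ▸ Nat.le_ceil _
    have m2 : (m : ℝ) ≤ M * (N : ℝ) ^ (1 - α + τ) + 1 := hm ▸ (Nat.ceil_lt_add_one (by positivity)).le
    have w : ∀ t, #(pat A t n) ≤ ⌊K * (n : ℝ) ^ α⌋₊ := fun t => Nat.le_floor (hW t n n1)
    have w1 : (⌊K * (n : ℝ) ^ α⌋₊ : ℝ) ≤ K * (n : ℝ) ^ α := Nat.floor_le (by positivity)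
    have p1 : (n : ℝ) ^ (α + ε) ≤ L ^ (α + ε) * (N : ℝ) ^ τ := by
      rw [ht, Real.rpow_mul N0.le, ← Real.mul_rpow L0.le (by positivity)]
      gcongr
    have q : (#(QQ A n) : ℝ) ≤ K * (C * 2 ^ (1 + ε)) * (n : ℝ) ^ (α + ε) := by
      have b : (#(QQ A n) : ℝ) * n ≤ ⌊K * (n : ℝ) ^ α⌋₊ * #(PP A (2 * n)) := by
        exact_mod_cast QQ_le w
      have c := hC (2 * n) (by omega)
      refine le_of_mul_le_mul_right (b.trans ((mul_le_mul w1 c (by positivity)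
        (by positivity)).trans_eq ?_)) n0
      push_cast
      rw [Real.mul_rpow (by norm_num) n0.le, Real.rpow_add n0, Real.rpow_add n0 α, Real.rpow_one]
      ring
    have pτ : 0 < (N : ℝ) ^ τ := by positivity
    have pn : 0 < (n : ℝ) ^ (α + ε) := by positivity
    have kc : 0 ≤ K * (C * 2 ^ (1 + ε)) := by positivity
    have all : (K * (C * 2 ^ (1 + ε)) + K + 1) * (n : ℝ) ^ (α + ε) ≤ D * (N : ℝ) ^ τ := by
      rw [hD, mul_assoc]
      gcongr
    have q1 : (#(QQ A n) : ℝ) ≤ D * (N : ℝ) ^ τ := by nlinarith [mul_nonneg K0 pn.le]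
    have w2 : (⌊K * (n : ℝ) ^ α⌋₊ : ℝ) ≤ D * (N : ℝ) ^ τ := by
      have : K * (n : ℝ) ^ α ≤ K * (n : ℝ) ^ (α + ε) :=
        mul_le_mul_of_nonneg_left (Real.rpow_le_rpow_of_exponent_le n1' (by linarith)) K0
      nlinarith [mul_nonneg kc pn.le]
    have s1 : D * (N : ℝ) ^ τ ≤ η / 4 * (N : ℝ) ^ α := by
      have : (N : ℝ) ^ τ = (N : ℝ) ^ (-(α - τ)) * (N : ℝ) ^ α := by
        rw [← Real.rpow_add N0]; ring_nf
      rw [this, ← mul_assoc]
      gcongr
      rw [lt_div_iff₀ D0] at h2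
      linarith
    have s2 : ((N / m : ℕ) : ℝ) * (D * (N : ℝ) ^ τ) ≤ η / 4 * (N : ℝ) ^ α := by
      have b : ((N / m : ℕ) : ℝ) * m ≤ N := by exact_mod_cast Nat.div_mul_le_self N m
      have c : ((N / m : ℕ) : ℝ) * (M * (N : ℝ) ^ (1 - α + τ)) ≤ N :=
        (mul_le_mul_of_nonneg_left m1 (by positivity)).trans b
      have d : (N : ℝ) ^ (1 - α + τ) * (N : ℝ) ^ α = N * (N : ℝ) ^ τ := by
        rw [← Real.rpow_add N0, ← Real.rpow_one_add' N0.le (by linarith)]; ring_nf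
      refine le_of_mul_le_mul_right (a := M * (N : ℝ) ^ (1 - α + τ)) ?_ (by positivity)
      calc _ = ((N / m : ℕ) : ℝ) * (M * (N : ℝ) ^ (1 - α + τ)) * (D * (N : ℝ) ^ τ) := by ring
        _ ≤ N * (D * (N : ℝ) ^ τ) := by gcongr
        _ = η / 4 * M * ((N : ℝ) ^ (1 - α + τ) * (N : ℝ) ^ α) := by
          rw [d, hM]; field_simp
        _ = _ := by ring
    refine ⟨n + m, by omega, ?_, ?_⟩
    · have b1 := Real.rpow_le_rpow_of_exponent_le N1' (le_max_left θ (1 - α + τ))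
      have b2 := Real.rpow_le_rpow_of_exponent_le N1' (le_max_right θ (1 - α + τ))
      have b3 := Real.one_le_rpow N1' (le_max_of_le_left t0 : 0 ≤ max θ (1 - α + τ))
      push_cast
      nlinarith [mul_le_mul_of_nonneg_left b1 L0.le, mul_le_mul_of_nonneg_left b2 M0.le]
    · have c : (#((range N).filter (BB A j n)) : ℝ) ≤ #((range N).filter (BB A (j + 1) (n + m))) +
          ⌊K * (n : ℝ) ^ α⌋₊ + (((N / m : ℕ) : ℝ) + 1) * #(QQ A n) := by
        exact_mod_cast count (j := j) N m0 w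
      have := mul_le_mul_of_nonneg_left q1 (Nat.cast_nonneg (α := ℝ) (N / m))
      nlinarith

theorem core {α K c : ℝ} (a0 : 0 < α) (a1 : α < 1) (c0 : 0 < c)
    (hW : ∀ t n, 1 ≤ n → (#(pat A t n) : ℝ) ≤ K * (n : ℝ) ^ α)
    (hL : ∃ᶠ N : ℕ in atTop, c * (N : ℝ) ^ α ≤ #(pat A 0 N))
    (hp : ∀ ε : ℝ, 0 < ε → ∃ C : ℝ, ∀ n, 1 ≤ n → (#(PP A n) : ℝ) ≤ C * (n : ℝ) ^ (1 + ε)) (j : ℕ) :
    ∃ (Y : Finset ℕ) (σ : ℕ), j < #Y ∧ ∀ y ∈ Y, y ∈ A ∧ y ≤ σ ∧ σ - y ∈ Y := by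
  classical
  obtain ⟨θ, -, -, L, -, ev⟩ := grow a0 a1 hW hp j (c / 2) (by positivity)
  obtain ⟨N, h1, ⟨n, -, -, h2⟩, N1⟩ := (hL.and_eventually (ev.and (eventually_ge_atTop 1))).exists
  have : 0 < c * (N : ℝ) ^ α := by positivity
  obtain ⟨a, ha⟩ := card_pos.1 (Nat.cast_pos (α := ℝ).1 (lt_of_lt_of_le (by linarith)
    (sub_le_iff_le_add.2 h2)))
  obtain ⟨-, Y, σ, b, h⟩ := (mem_filter.1 ha).2
  refine ⟨Y.image (a + ·), 2 * a + σ, by rwa [card_image_of_injective _ (add_right_injective a)],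
    fun y hy => ?_⟩
  obtain ⟨y, hy', rfl⟩ := mem_image.1 hy
  obtain ⟨-, b2, b3, b4⟩ := h y hy'
  exact ⟨b2, by omega, mem_image.2 ⟨_, b4, by omega⟩⟩

end Pool.Agent.H.MP_12a1af_nt
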